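import Pool.Agent.W848.N2.Stm

/-!
# Project N2: four pairwise adjacent vertices
-/

set_option autoImplicit false

namespace Pool.Agent.W428.N2

/-- tournament on four vertices given by six bits -/
def T4 (x0 x1 x2 x3 x4 x5 : Bool) (i j : Fin 4) : Bool :=
  match i, j with
  | 0, 1 => x0
  | 1, 0 => !x0
  | 0, 2 => x1
  | 2, 0 => !x1
  | 0, 3 => x2
  | 3, 0 => !x2
  | 1, 2 => x3
  | 2, 1 => !x3
  | 1, 3 => x4
  | 3, 1 => !x4
  | 2, 3 => x5
  | 3, 2 => !x5
  | _, _ => false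

set_option maxRecDepth 100000 in
theorem T4_all : ∀ x0 x1 x2 x3 x4 x5 : Bool, ∃ a b c e : Fin 4,
    T4 x0 x1 x2 x3 x4 x5 a b = true ∧ T4 x0 x1 x2 x3 x4 x5 b c = true ∧
    T4 x0 x1 x2 x3 x4 x5 c e = true ∧ T4 x0 x1 x2 x3 x4 x5 a e = true := by
  decide

theorem t_TOUR : Pool.Agent.W848.N2.S_TOUR := by
  classical
  intro V R v h
  have key : ∀ i j, T4 (decide (R (v 0) (v 1))) (decide (R (v 0) (v 2))) (decide (R (v 0) (v 3)))
      (decide (R (v 1) (v 2))) (decide (R (v 1) (v 3))) (decide (R (v 2) (v 3))) i j = true →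
      R (v i) (v j) := by
    have h01 := h 0 1 (by decide)
    have h02 := h 0 2 (by decide)
    have h03 := h 0 3 (by decide)
    have h12 := h 1 2 (by decide)
    have h13 := h 1 3 (by decide)
    have h23 := h 2 3 (by decide)
    intro i j
    fin_cases i <;> fin_cases j <;> simp [T4] <;> intro hh <;> tauto
  obtain ⟨a, b, c, e, h1, h2, h3, h4⟩ := T4_all (decide (R (v 0) (v 1))) (decide (R (v 0) (v 2)))
    (decide (R (v 0) (v 3))) (decide (R (v 1) (v 2))) (decide (R (v 1) (v 3)))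
    (decide (R (v 2) (v 3)))
  exact ⟨a, b, c, e, key _ _ h1, key _ _ h2, key _ _ h3, key _ _ h4⟩

end Pool.Agent.W428.N2
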